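import Pool.Agent.N642.SA.Open

/-!
# Non-meager independence and strongly admissible geometries: products with a tame factor

Let `G` be a Polish group, `H ≤ G` closed, `K₁, K₂ ≤ H` closed. If one of `K₁`, `K₂` is *tame* in `H` — the conjugations by
its elements near `1` are equicontinuous at `1` on `H` —, then `K₁ K₂` is non-meager in `H` if and only if it is open in `H`,
and every strongly admissible ideal scheme `𝓘` with `K₁ K₂ ∈ 𝓘_H` has `K₁ K₂` meager in `H`. All locally compact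
subgroups are tame, and all subgroups if `H` has small invariant neighbourhoods. If `G` is tame in itself (for example
locally compact, or with a two-sided invariant metric) then the question Q1 has a positive answer for `G`.

Proof. If `K₁ K₂` is not meager then the closures of the sets `(K₁ ∩ W) K₂` are neighbourhoods of `1`; a successive
approximation gives an infinite product of elements of `K₁`, which converges because it is Cauchy for both
uniformities (`raikov`). An open product is not in `𝓘_H`, since countably many translates cover `H`.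
-/

set_option autoImplicit false

namespace Pool.Agent.Results.MP_842576_lc.TameProducts

open Filter Topology Set
open scoped Pointwise

variable {G : Type*} [Group G] [TopologicalSpace G]

/-- A strongly admissible ideal scheme on `G`: `I H` is the ideal `𝓘_H` (a family of subsets of `G` contained in `H`) for
each closed subgroup `H`. -/
structure StronglyAdmissible (I : Subgroup G → Set (Set G)) : Prop where
  /-- the members are subsets of `H` -/
  sub : ∀ H : Subgroup G, IsClosed (H : Set G) → ∀ s ∈ I H, s ⊆ (H : Set G)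
  /-- the empty set is a member -/
  empty : ∀ H : Subgroup G, IsClosed (H : Set G) → ∅ ∈ I H
  /-- closed under subsets -/
  mono : ∀ H : Subgroup G, IsClosed (H : Set G) → ∀ s ∈ I H, ∀ t ⊆ s, t ∈ I H
  /-- (1) closed under countable unions -/
  union : ∀ H : Subgroup G, IsClosed (H : Set G) → ∀ f : ℕ → Set G, (∀ n, f n ∈ I H) → (⋃ n, f n) ∈ I H
  /-- (2) invariance under left translations by elements of `H` -/
  left : ∀ H : Subgroup G, IsClosed (H : Set G) → ∀ h ∈ H, ∀ s ∈ I H, (fun x => h * x) '' s ∈ I H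
  /-- (2) invariance under right translations by elements of `H` -/
  right : ∀ H : Subgroup G, IsClosed (H : Set G) → ∀ h ∈ H, ∀ s ∈ I H, (fun x => x * h) '' s ∈ I H
  /-- (2) `g⁻¹ 𝓘_H g = 𝓘_{g⁻¹ H g}` -/
  conj : ∀ H : Subgroup G, IsClosed (H : Set G) → ∀ (g : G) (s : Set G),
    s ∈ I H ↔ (fun x => g⁻¹ * x * g) '' s ∈ I (H.map (MulAut.conj g⁻¹).toMonoidHom)
  /-- (3) transitivity -/
  trans : ∀ K₁ K₂ K₃ H : Subgroup G, IsClosed (K₁ : Set G) → IsClosed (K₂ : Set G) → IsClosed (K₃ : Set G) →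
    IsClosed (H : Set G) → K₃ ≤ K₂ → K₂ ≤ K₁ → H ≤ K₁ →
    ((((H ⊓ K₂ : Subgroup G) : Set G) * (K₃ : Set G) ∉ I K₂ ∧ (H : Set G) * (K₂ : Set G) ∉ I K₁) ↔
      (H : Set G) * (K₃ : Set G) ∉ I K₁)
  /-- (4) dichotomy -/
  dich : ∀ K H : Subgroup G, IsClosed (K : Set G) → IsClosed (H : Set G) → K ≤ H →
    ((K : Set G) ∈ I H ↔ ¬ Countable (H ⧸ K.subgroupOf H))

/-- `s` is meager in the subgroup `H` (with the subspace topology). -/
def MeagerIn (H : Subgroup G) (s : Set G) : Prop := IsMeagre ((Subtype.val : H → G) ⁻¹' s)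

/-- `s` is open in the subgroup `H`. -/
def OpenIn (H : Subgroup G) (s : Set G) : Prop := IsOpen ((Subtype.val : H → G) ⁻¹' s)

/-- `K` is tame in `H`: for some neighbourhood `W` of `1` the conjugations `h ↦ k⁻¹ h k` of `H` by the elements `k` of
`K ∩ W` are equicontinuous at `1`. -/
def Tame (K H : Subgroup G) : Prop :=
  ∃ W ∈ 𝓝 (1 : G), ∀ V ∈ 𝓝 (1 : G), ∃ O ∈ 𝓝 (1 : G), ∀ k ∈ K, k ∈ W → ∀ h ∈ H, h ∈ O → k⁻¹ * h * k ∈ V

/-- The assertion of Q1 for the group `G`. -/
def Q1 (G : Type*) [Group G] [TopologicalSpace G] : Prop :=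
  ∀ I : Subgroup G → Set (Set G), StronglyAdmissible I → ∀ H K₁ K₂ : Subgroup G, IsClosed (H : Set G) →
    IsClosed (K₁ : Set G) → IsClosed (K₂ : Set G) → K₁ ≤ H → K₂ ≤ H → (K₁ : Set G) * (K₂ : Set G) ∈ I H →
    MeagerIn H ((K₁ : Set G) * (K₂ : Set G))

/-- the product inside `H` -/
theorem preimage_mul {H K L : Subgroup G} (hK : K ≤ H) (hL : L ≤ H) :
    (Subtype.val : H → G) ⁻¹' ((K : Set G) * (L : Set G)) = (K.subgroupOf H : Set H) * (L.subgroupOf H : Set H) := by
  ext x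
  constructor
  · rintro ⟨k, hk, l, hl, h⟩
    exact ⟨⟨k, hK hk⟩, hk, ⟨l, hL hl⟩, hl, Subtype.ext h⟩
  · rintro ⟨k, hk, l, hl, rfl⟩
    exact ⟨k, hk, l, hl, rfl⟩

variable [IsTopologicalGroup G]

theorem Tame.inside {K H : Subgroup G} (h : Tame K H) : Pool.Agent.N642.SA.Tame (K.subgroupOf H) := by
  obtain ⟨W, hW, h⟩ := h
  refine ⟨(Subtype.val : H → G) ⁻¹' W, ?_, fun V hV => ?_⟩
  · exact (continuous_subtype_val (p := fun x => x ∈ H)).continuousAt.preimage_mem_nhds hW
  · rw [nhds_subtype_eq_comap, mem_comap] at hV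
    obtain ⟨V', hV', hVV⟩ := hV
    obtain ⟨O, hO, hOV⟩ := h V' hV'
    refine ⟨(Subtype.val : H → G) ⁻¹' O, (continuous_subtype_val (p := fun x => x ∈ H)).continuousAt.preimage_mem_nhds hO,
      fun k hk hkW o ho => hVV ?_⟩
    exact hOV k hk hkW o o.2 ho

/-- non-meager products with a tame factor are open -/
theorem open_of_not_meager [PolishSpace G] {H K₁ K₂ : Subgroup G} (hH : IsClosed (H : Set G))
    (hK₁ : IsClosed (K₁ : Set G)) (hK₂ : IsClosed (K₂ : Set G)) (h₁ : K₁ ≤ H) (h₂ : K₂ ≤ H) (hT : Tame K₁ H ∨ Tame K₂ H)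
    (h : ¬ MeagerIn H ((K₁ : Set G) * (K₂ : Set G))) : OpenIn H ((K₁ : Set G) * (K₂ : Set G)) := by
  haveI : PolishSpace H := hH.polishSpace
  have c₁ : IsClosed (K₁.subgroupOf H : Set H) := hK₁.preimage continuous_subtype_val
  have c₂ : IsClosed (K₂.subgroupOf H : Set H) := hK₂.preimage continuous_subtype_val
  unfold MeagerIn at h
  unfold OpenIn
  rw [preimage_mul h₁ h₂] at h ⊢
  rcases hT with hT | hT
  · exact Pool.Agent.N642.SA.isOpen_mul _ _ c₁ c₂ hT.inside h
  · have hinv : ((K₁.subgroupOf H : Set H) * (K₂.subgroupOf H : Set H))⁻¹ =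
        (K₂.subgroupOf H : Set H) * (K₁.subgroupOf H : Set H) := by
      rw [mul_inv_rev, inv_coe_set, inv_coe_set]
    have h3 : ¬ IsMeagre ((K₂.subgroupOf H : Set H) * (K₁.subgroupOf H : Set H)) := by
      intro h4
      apply h
      rw [← hinv] at h4
      have h5 := h4.preimage_of_isOpenMap continuous_inv (Homeomorph.inv H).isOpenMap
      convert h5 using 1
      ext x
      simp
    have h6 := Pool.Agent.N642.SA.isOpen_mul _ _ c₂ c₁ hT.inside h3
    rw [← hinv] at h6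
    have h7 := h6.preimage (continuous_inv (G := H))
    convert h7 using 1
    ext x
    simp

/-- open products are not in the ideal -/
theorem not_mem_of_open [PolishSpace G] {I : Subgroup G → Set (Set G)} (hI : StronglyAdmissible I)
    {H K₁ K₂ : Subgroup G} (hH : IsClosed (H : Set G)) (h : OpenIn H ((K₁ : Set G) * (K₂ : Set G))) :
    (K₁ : Set G) * (K₂ : Set G) ∉ I H := by
  intro hmem
  haveI : PolishSpace H := hH.polishSpace
  set P : Set G := (K₁ : Set G) * (K₂ : Set G) with hP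
  have h1P : (1 : G) ∈ P := ⟨1, K₁.one_mem, 1, K₂.one_mem, mul_one 1⟩
  -- countably many left translates cover `H`
  obtain ⟨T, -, hTc, hTU⟩ := TopologicalSpace.isOpen_biUnion_countable (univ : Set H)
    (fun k : H => (fun g : H => k⁻¹ * g) ⁻¹' ((Subtype.val : H → G) ⁻¹' P))
    (fun k _ => IsOpen.preimage (continuous_const_mul _) h)
  have hall : ∀ g : H, ∃ k ∈ T, (k⁻¹ * g : G) ∈ P := by
    intro g
    have h2 : g ∈ ⋃ k ∈ (univ : Set H), (fun g : H => k⁻¹ * g) ⁻¹' ((Subtype.val : H → G) ⁻¹' P) := by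
      rw [mem_iUnion₂]
      refine ⟨g, mem_univ g, ?_⟩
      change ((g⁻¹ * g : H) : G) ∈ P
      rw [inv_mul_cancel]
      exact h1P
    rw [← hTU, mem_iUnion₂] at h2
    obtain ⟨k, hk, h3⟩ := h2
    exact ⟨k, hk, h3⟩
  have hTne : T.Nonempty := by
    obtain ⟨k, hk, -⟩ := hall 1
    exact ⟨k, hk⟩
  obtain ⟨e, he⟩ := hTc.exists_eq_range hTne
  have hU : (⋃ n : ℕ, (fun x => ((e n : H) : G) * x) '' P) ∈ I H :=
    hI.union H hH _ fun n => hI.left H hH _ (e n).2 P hmem
  have hHm : (H : Set G) ∈ I H := by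
    refine hI.mono H hH _ hU _ fun g hg => ?_
    obtain ⟨k, hk, h4⟩ := hall ⟨g, hg⟩
    rw [he] at hk
    obtain ⟨n, rfl⟩ := hk
    rw [mem_iUnion]
    exact ⟨n, _, h4, by simp⟩
  have h5 := (hI.dich H H hH hH le_rfl).mp hHm
  apply h5
  have h6 : H.subgroupOf H = ⊤ := Subgroup.subgroupOf_self H
  rw [h6]
  haveI : Subsingleton (H ⧸ (⊤ : Subgroup H)) := QuotientGroup.subsingleton_quotient_top
  infer_instance

/-- locally compact subgroups are tame -/
theorem tame_of_locallyCompact {K H : Subgroup G} [LocallyCompactSpace K] : Tame K H := by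
  obtain ⟨C, hC, hC1⟩ := exists_compact_mem_nhds (1 : K)
  rw [nhds_subtype_eq_comap, mem_comap] at hC1
  obtain ⟨W, hW, hWC⟩ := hC1
  refine ⟨W, hW, fun V hV => ?_⟩
  obtain ⟨V', hVV, hV', h1V⟩ := mem_nhds_iff.mp hV
  have hopen : IsOpen {p : K × G | (p.1 : G)⁻¹ * p.2 * (p.1 : G) ∈ V'} := by
    refine hV'.preimage ?_
    exact ((continuous_subtype_val.comp continuous_fst).inv.mul continuous_snd).mul
      (continuous_subtype_val.comp continuous_fst)
  obtain ⟨A, O, hA, hO, hCA, h1O, hAO⟩ := generalized_tube_lemma hC (isCompact_singleton (x := (1 : G))) hopen (by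
    rintro ⟨c, o⟩ ⟨-, ho⟩
    rw [mem_singleton_iff] at ho
    simp only at ho
    subst ho
    change (c : G)⁻¹ * 1 * (c : G) ∈ V'
    rw [mul_one, inv_mul_cancel]
    exact h1V)
  refine ⟨O, hO.mem_nhds (h1O rfl), fun k hk hkW o _ ho => hVV ?_⟩
  have h1 : ((⟨k, hk⟩ : K), o) ∈ A ×ˢ O := ⟨hCA (hWC hkW), ho⟩
  exact hAO h1

/-- **Main result.** Let `G` be a Polish group. (1) Let `K₁, K₂ ≤ H` be closed subgroups, one of `K₁`, `K₂` tame in `H`. Then
`K₁ K₂` is non-meager in `H` if and only if it is open in `H`, and if `K₁ K₂ ∈ 𝓘_H` for some strongly admissible `𝓘`, then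
`K₁ K₂` is meager in `H`. (2) Locally compact subgroups are tame in all subgroups. (3) If `H` has arbitrarily small
neighbourhoods of `1` invariant under conjugation (in the sense written out), then all `K ≤ H` are tame in `H`. (4) If `G` is
tame in `G`, then Q1 holds for `G`. -/
theorem result {G : Type*} [Group G] [TopologicalSpace G] [IsTopologicalGroup G] [PolishSpace G] :
    (∀ H K₁ K₂ : Subgroup G, IsClosed (H : Set G) → IsClosed (K₁ : Set G) → IsClosed (K₂ : Set G) → K₁ ≤ H → K₂ ≤ H →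
      (Tame K₁ H ∨ Tame K₂ H) →
      (¬ MeagerIn H ((K₁ : Set G) * (K₂ : Set G)) ↔ OpenIn H ((K₁ : Set G) * (K₂ : Set G))) ∧
      ∀ I : Subgroup G → Set (Set G), StronglyAdmissible I → (K₁ : Set G) * (K₂ : Set G) ∈ I H →
        MeagerIn H ((K₁ : Set G) * (K₂ : Set G))) ∧
    (∀ K H : Subgroup G, LocallyCompactSpace K → Tame K H) ∧
    (∀ K H : Subgroup G, K ≤ H →
      (∀ V ∈ 𝓝 (1 : G), ∃ O ∈ 𝓝 (1 : G), ∀ k ∈ H, ∀ h ∈ H, h ∈ O → k⁻¹ * h * k ∈ V) → Tame K H) ∧
    (Tame (⊤ : Subgroup G) ⊤ → Q1 G) := by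
  have main : ∀ H K₁ K₂ : Subgroup G, IsClosed (H : Set G) → IsClosed (K₁ : Set G) → IsClosed (K₂ : Set G) → K₁ ≤ H →
      K₂ ≤ H → (Tame K₁ H ∨ Tame K₂ H) →
      (¬ MeagerIn H ((K₁ : Set G) * (K₂ : Set G)) ↔ OpenIn H ((K₁ : Set G) * (K₂ : Set G))) ∧
      ∀ I : Subgroup G → Set (Set G), StronglyAdmissible I → (K₁ : Set G) * (K₂ : Set G) ∈ I H →
        MeagerIn H ((K₁ : Set G) * (K₂ : Set G)) := by
    intro H K₁ K₂ hH hK₁ hK₂ h₁ h₂ hT
    refine ⟨⟨open_of_not_meager hH hK₁ hK₂ h₁ h₂ hT, fun h => ?_⟩, fun I hI hmem => ?_⟩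
    · haveI : PolishSpace H := hH.polishSpace
      exact not_isMeagre_of_isOpen h ⟨1, 1, K₁.one_mem, 1, K₂.one_mem, mul_one 1⟩
    · by_contra hcon
      exact not_mem_of_open hI hH (open_of_not_meager hH hK₁ hK₂ h₁ h₂ hT hcon) hmem
  refine ⟨main, fun K H hK => tame_of_locallyCompact, fun K H hKH h => ?_, fun hG I hI H K₁ K₂ hH hK₁ hK₂ h₁ h₂ hmem => ?_⟩
  · refine ⟨univ, univ_mem, fun V hV => ?_⟩
    obtain ⟨O, hO, h⟩ := h V hV
    exact ⟨O, hO, fun k hk _ => h k (hKH hk)⟩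
  · refine (main H K₁ K₂ hH hK₁ hK₂ h₁ h₂ (Or.inl ?_)).2 I hI hmem
    obtain ⟨W, hW, h⟩ := hG
    refine ⟨W, hW, fun V hV => ?_⟩
    obtain ⟨O, hO, h⟩ := h V hV
    exact ⟨O, hO, fun k _ hkW o _ ho => h k (Subgroup.mem_top k) hkW o (Subgroup.mem_top o) ho⟩

end Pool.Agent.Results.MP_842576_lc.TameProducts
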